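import Pool.Agent.W845.DH.Stm

/-!
DH-SWX: number of cycles after combined switches.
-/

set_option autoImplicit false

open scoped Classical

namespace Pool.Agent.W140.DH
open Pool.Agent.W845.DH

theorem sw3 (hM : S_SWM) : S_SW3 := by
  intro V _ τ u v w huv huw hvw
  obtain ⟨h1, h2⟩ := hM V τ u v huv
  have h3 : ¬ (τ * Equiv.swap u v).SameCycle v w := by
    rw [h1]
    rintro (h | ⟨-, h | h⟩)
    · exact hvw h
    · exact huw h
    · exact hvw h
  obtain ⟨-, h4⟩ := hM V (τ * Equiv.swap u v) v w h3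
  omega

theorem sw4 (hM : S_SWM) (hS : S_SWS) : S_SW4 := by
  intro V _ τ u1 u1' u2 u3 h11 h12 h13 h1'2 h1'3 h23
  obtain ⟨a1, a2⟩ := hM V τ u1 u2 h12
  have b1 : ¬ (τ * Equiv.swap u1 u2).SameCycle u2 u1' := by
    rw [a1]
    rintro (h | ⟨-, h | h⟩)
    · exact h1'2 h.symm
    · exact h11 h
    · exact h1'2 h.symm
  obtain ⟨-, b2⟩ := hM V (τ * Equiv.swap u1 u2) u2 u1' b1
  have hne : u1' ≠ u3 := by
    intro h
    apply h1'3
    rw [h]
  by_cases hc : (τ * Equiv.swap u1 u2 * Equiv.swap u2 u1').SameCycle u1' u3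
  · have c1 := (hS V (τ * Equiv.swap u1 u2 * Equiv.swap u2 u1') u1' u3 hne hc).2.2.2.2
    omega
  · have c1 := (hM V (τ * Equiv.swap u1 u2 * Equiv.swap u2 u1') u1' u3 hc).2
    omega

theorem sw6 (hM : S_SWM) (hS : S_SWS) : S_SW6 := by
  intro V _ τ u1 u1' u2 u3 u4 u5 h11 h12 h1'2 hne h23 h24 h25 h45
  obtain ⟨-, a2, -, -, a5⟩ := hS V τ u2 u3 hne h23
  have b1 : ¬ (τ * Equiv.swap u2 u3).SameCycle u3 u1 := by
    intro h
    exact h12 (h23.trans (a2 _ _ h)).symm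
  obtain ⟨b2, b3⟩ := hM V (τ * Equiv.swap u2 u3) u3 u1 b1
  have c1 : ∀ x, τ.SameCycle u2 x → ¬ (τ * Equiv.swap u2 u3 * Equiv.swap u3 u1).SameCycle u1' x := by
    intro x hx
    rw [b2]
    rintro (h | ⟨h | h, -⟩)
    · exact h1'2 ((a2 _ _ h).trans hx.symm)
    · exact h1'2 (h23.trans (a2 _ _ h)).symm
    · exact h11 (a2 _ _ h)
  have c2 : ¬ (τ * Equiv.swap u2 u3 * Equiv.swap u3 u1).SameCycle u4 u5 := by
    rw [b2]
    rintro (h | ⟨h | h, h' | h'⟩)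
    · exact h45 h
    · exact h45 (h.symm.trans h')
    · exact h12 ((a2 _ _ h').trans h25.symm)
    · exact h12 ((a2 _ _ h).trans h24.symm)
    · exact h12 ((a2 _ _ h).trans h24.symm)
  have c3 := sw3 hM V (τ * Equiv.swap u2 u3 * Equiv.swap u3 u1) u1' u4 u5 (c1 u4 h24) (c1 u5 h25) c2
  omega

end Pool.Agent.W140.DH
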